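import Pool.Agent.H.MP_d417b4_co.E

namespace Pool.Agent.Results.MP_d417b4_co.No

open Finset SimpleGraph

/-- the number of subtrees of `G` with exactly `k` vertices -/
noncomputable def s {n : ℕ} (G : SimpleGraph (Fin n)) (k : ℕ) : ℕ :=
  {T : G.Subgraph | T.coe.IsTree ∧ T.verts.ncard = k}.ncard

/-- the mean subtree order -/
noncomputable def mu {n : ℕ} (G : SimpleGraph (Fin n)) : ℚ :=
  (∑ k ∈ Icc 1 n, (k : ℚ) * s G k) / ∑ k ∈ Icc 1 n, (s G k : ℚ)

open Pool.Agent.H.MPd417b4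

lemma mu_eq (G : SimpleGraph (Fin 15)) : mu G = (SS G : ℚ) / NN G := by
  unfold mu SS NN
  push_cast
  rfl

lemma pos (G : SimpleGraph (Fin 15)) : (0 : ℚ) < NN G := by
  have : sk G 1 ≤ NN G := single_le_sum (f := sk G) (fun _ _ => Nat.zero_le _) (by decide)
  rw [sk_one] at this
  exact_mod_cast (by omega : 0 < NN G)

theorem result : ∃ (n : ℕ) (G : SimpleGraph (Fin n)), G.Connected ∧ G ≠ ⊤ ∧
    ∀ u v, u ≠ v → ¬ G.Adj u v → mu (G ⊔ edge u v) < mu G := by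
  refine ⟨15, G0, conn, ne_top, fun u v h k => ?_⟩
  rw [mu_eq, mu_eq, div_lt_div_iff₀ (pos _) (pos _)]
  exact_mod_cast bad_all u v h k

end Pool.Agent.Results.MP_d417b4_co.No
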